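import Pool.Agent.Helper88.UN.Meas
import Pool.Agent.Helper6.UN.LIM

/-!
# Project UN (MP_e3e162_pr), infinite volume, part 4: existence

The limit of the free measures satisfies the DLR equation, on every connected locally finite graph.
-/

set_option autoImplicit false

open Finset MeasureTheory

namespace Pool.Agent.Helper88.UN

open Classical Pool.Agent.Helper30.RCU

universe u

variable {V : Type u} {G : SimpleGraph V} {p q : ℝ}

lemma one_measurable (K : Finset G.edgeSet) : Measurable (one G K) := by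
  unfold one
  exact Measurable.ite (measurable_cyl K) measurable_const measurable_const

/-- a local function as a finite sum -/
lemma lintegral_local (B : Finset G.edgeSet) (μ : Measure (Set G.edgeSet))
    (h : Set G.edgeSet → ENNReal) :
    ∫⁻ ω, h (ω ∩ (B : Set G.edgeSet)) ∂μ = ∑ η ∈ B.powerset,
      h (η : Set G.edgeSet) * μ {ω | ω ∩ (B : Set G.edgeSet) = (η : Set G.edgeSet)} := by
  have h1 : ∀ ω : Set G.edgeSet, h (ω ∩ (B : Set G.edgeSet)) = ∑ η ∈ B.powerset,
      h (η : Set G.edgeSet) * Set.indicator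
        {ω : Set G.edgeSet | ω ∩ (B : Set G.edgeSet) = (η : Set G.edgeSet)} (fun _ => 1) ω := by
    intro ω
    set η₀ : Finset G.edgeSet := B.filter (fun e => e ∈ ω) with hη₀
    have h2 : (η₀ : Set G.edgeSet) = ω ∩ (B : Set G.edgeSet) := by
      ext e; simp [hη₀, and_comm]
    rw [Finset.sum_eq_single η₀]
    · rw [Set.indicator_of_mem (show ω ∈ {ω : Set G.edgeSet | ω ∩ (B : Set G.edgeSet) =
        (η₀ : Set G.edgeSet)} from h2.symm), mul_one, h2]
    · intro η _ hne
      rw [Set.indicator_of_notMem, mul_zero]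
      intro h3
      have h4 : ω ∩ (B : Set G.edgeSet) = (η : Set G.edgeSet) := h3
      rw [← h2] at h4
      exact hne (by exact_mod_cast h4.symm)
    · intro h3
      exact absurd (mem_powerset.mpr (filter_subset _ _)) h3
  simp only [h1]
  have hm : ∀ η : Finset G.edgeSet, MeasurableSet
      {ω : Set G.edgeSet | ω ∩ (B : Set G.edgeSet) = (η : Set G.edgeSet)} := fun η =>
    measurable_local B fun ω => ω = (η : Set G.edgeSet)
  rw [lintegral_finsetSum]
  · refine Finset.sum_congr rfl fun η _ => ?_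
    rw [lintegral_const_mul _ (measurable_const.indicator (hm η)),
      lintegral_indicator_const (hm η), one_mul]
  · intro η _
    exact (measurable_const.indicator (hm η)).const_mul _

/-- The conditional expectation depends on finitely many edges (for each configuration). -/
lemma Ek_stable (hp : 0 ≤ p) (hp1 : p ≤ 1) (hq : 1 ≤ q) (F K : Finset G.edgeSet)
    (ω : Set G.edgeSet) :
    ∃ B : Finset G.edgeSet, Ek G p q F (ω ∩ (B : Set G.edgeSet)) (one G K) =
      Ek G p q F ω (one G K) := by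
  -- witnesses for the connections
  have hB : ∀ z : V × V, ∃ B : Finset G.edgeSet,
      Conn (eφ G) (ω \ (F : Set G.edgeSet)) z.1 z.2 →
      Conn (eφ G) ((ω ∩ (B : Set G.edgeSet)) \ (F : Set G.edgeSet)) z.1 z.2 := by
    intro z
    by_cases h : Conn (eφ G) (ω \ (F : Set G.edgeSet)) z.1 z.2
    · obtain ⟨B, hB, hc⟩ := conn_finite h
      refine ⟨B, fun _ => hc.mono ?_⟩
      intro e he
      exact ⟨⟨(hB he).1, he⟩, (hB he).2⟩
    · exact ⟨∅, fun h' => absurd h' h⟩
  choose Bz hBz using hB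
  set B : Finset G.edgeSet := K ∪ (VF G F ×ˢ VF G F).biUnion Bz with hBdef
  refine ⟨B, ?_⟩
  have hK : K ⊆ B := subset_union_left
  have hKx : Kx G F (ω ∩ (B : Set G.edgeSet)) = Kx G F ω := by
    unfold Kx
    congr 1
    refine Finset.filter_congr fun z hz => ?_
    constructor
    · exact fun h => h.mono (Set.sdiff_subset_sdiff_left Set.inter_subset_left)
    · intro h
      refine (hBz z h).mono (Set.sdiff_subset_sdiff_left (Set.inter_subset_inter_right _ ?_))
      have h1 : Bz z ⊆ B := (Finset.subset_biUnion_of_mem Bz hz).trans subset_union_right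
      exact_mod_cast h1
  rw [Ek_eq_kI, Ek_eq_kI, Pool.Agent.Helper37.RCU.hCB V G p q hp hp1 hq F,
    Pool.Agent.Helper37.RCU.hCB V G p q hp hp1 hq F ω, hKx]
  congr 1
  funext η
  have h2 : (K : Set G.edgeSet) ⊆ (η.toLeft : Set G.edgeSet) ∪
      ((ω ∩ (B : Set G.edgeSet)) \ (F : Set G.edgeSet)) ↔
      (K : Set G.edgeSet) ⊆ (η.toLeft : Set G.edgeSet) ∪ (ω \ (F : Set G.edgeSet)) := by
    constructor
    · intro h e he
      rcases h he with h3 | h3
      · exact Or.inl h3
      · exact Or.inr ⟨h3.1.1, h3.2⟩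
    · intro h e he
      rcases h he with h3 | h3
      · exact Or.inl h3
      · exact Or.inr ⟨⟨h3.1, hK he⟩, h3.2⟩
  unfold one
  by_cases h3 : (K : Set G.edgeSet) ⊆ (η.toLeft : Set G.edgeSet) ∪ (ω \ (F : Set G.edgeSet))
  · rw [if_pos h3, if_pos (h2.mpr h3)]
  · rw [if_neg h3, if_neg (fun h => h3 (h2.mp h))]

/-- existence of a random-cluster measure -/
theorem exists_rc_of (hLIM : Pool.Agent.Helper6.UN.StLIM.{u}) (hG : G.Connected)
    (hlf : ∀ v, (G.neighborSet v).Finite)
    (hp : 0 ≤ p) (hp1 : p ≤ 1) (hq : 1 ≤ q) :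
    ∃ μ : Measure (Set G.edgeSet), IsRandomCluster G p q μ := by
  have hcount := countable_E hG hlf
  obtain ⟨U, μ, hU, hμ, hlim⟩ := hLIM G.edgeSet (fun F => kap G p q F ∅)
    (fun F => kap_prob hp hp1 hq F ∅)
  refine ⟨μ, dlr_of_cyl hp hp1 hq hμ fun F K => ?_⟩
  -- the function `h`
  set h : Set G.edgeSet → ℝ := fun ξ => Ek G p q F ξ (one G K) with hh
  have hmeas : Measurable h := measurable_Ek F (one_measurable K)
  have h0 : ∀ ξ, 0 ≤ h ξ := by
    intro ξ
    have := Ek_mono hp hp1 hq F ξ (h := fun _ => 0) (h' := one G K) fun η _ => one_nonneg K _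
    rwa [Ek_const hp hp1 hq] at this
  have hmono : Monotone h := fun ξ ξ' hξ => Ek_mono_bc hp hp1 hq F hξ (one_nonneg K) (one_mono K)
  -- local functions: convergence
  have hloc : ∀ (B : Finset G.edgeSet) (f : Set G.edgeSet → ℝ), Measurable f → (∀ ω, 0 ≤ f ω) →
      Filter.Tendsto (fun F' => ENNReal.ofReal (Ek G p q F' ∅
        (fun ω => f (ω ∩ (B : Set G.edgeSet))))) (U : Filter (Finset G.edgeSet))
        (nhds (∫⁻ ω, ENNReal.ofReal (f (ω ∩ (B : Set G.edgeSet))) ∂μ)) := by
    intro B f hf hf0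
    have hfm : Measurable fun ω : Set G.edgeSet => f (ω ∩ (B : Set G.edgeSet)) := by
      refine hf.comp ?_
      refine measurable_set_iff.mpr fun a => ?_
      refine measurableSet_setOfPred.mp ?_
      by_cases ha : a ∈ B
      · have : {ω : Set G.edgeSet | a ∈ ω ∩ (B : Set G.edgeSet)} = {ω | a ∈ ω} := by
          ext ω; simp [ha]
        rw [this]; exact measurableSet_mem a
      · have : {ω : Set G.edgeSet | a ∈ ω ∩ (B : Set G.edgeSet)} = ∅ := by
          ext ω; simp [ha]
        rw [this]; exact MeasurableSet.empty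
    have h1 : ∀ F' : Finset G.edgeSet, ENNReal.ofReal (Ek G p q F' ∅
        (fun ω => f (ω ∩ (B : Set G.edgeSet)))) = ∑ η ∈ B.powerset,
          ENNReal.ofReal (f (η : Set G.edgeSet)) *
          (kap G p q F' ∅) {ω | ω ∩ (B : Set G.edgeSet) = (η : Set G.edgeSet)} := by
      intro F'
      rw [← lintegral_kap hp hp1 hq F' ∅ hfm (fun ω => hf0 _)]
      exact lintegral_local B (kap G p q F' ∅) (fun ω => ENNReal.ofReal (f ω))
    have h2 := lintegral_local B μ (fun ω => ENNReal.ofReal (f ω))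
    rw [h2]
    simp only [h1]
    refine tendsto_finsetSum _ fun η _ => ?_
    exact ENNReal.Tendsto.const_mul (hlim B fun ω => ω = (η : Set G.edgeSet))
      (Or.inr ENNReal.ofReal_ne_top)
  have hcylK : Filter.Tendsto (fun F' => ENNReal.ofReal (Ek G p q F' ∅ (one G K)))
      (U : Filter (Finset G.edgeSet)) (nhds (μ (cyl G K))) := by
    have h1 := hlim K fun ω => (K : Set G.edgeSet) ⊆ ω
    have h2 : {ω : Set G.edgeSet | (K : Set G.edgeSet) ⊆ ω ∩ (K : Set G.edgeSet)} = cyl G K := by
      ext ω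
      constructor
      · intro h e he
        exact (h he).1
      · intro h e he
        exact ⟨h he, he⟩
    rw [h2] at h1
    refine h1.congr fun F' => ?_
    rw [kap_apply hp hp1 hq F' ∅ (measurable_cyl K), kernel_cyl]
  -- monotonicity in the edge set
  have hincr : ∀ (f : Set G.edgeSet → ℝ), (∀ ω, 0 ≤ f ω) → Monotone f →
      ∀ F₁ F₂ : Finset G.edgeSet, F₁ ⊆ F₂ → Ek G p q F₁ ∅ f ≤ Ek G p q F₂ ∅ f := by
    intro f hf0 hf F₁ F₂ h12
    rw [← Ek_Ek hp hp1 hq h12 ∅ f]
    refine (Ek_const hp hp1 hq F₂ ∅ _).symm.le.trans (Ek_mono hp hp1 hq F₂ ∅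
      (h := fun _ => Ek G p q F₁ ∅ f) fun η _ => ?_)
    exact Ek_mono_bc hp hp1 hq F₁ (Set.empty_subset _) hf0 hf
  have hge : ∀ F₀ : Finset G.edgeSet, ∀ᶠ F' in (U : Filter (Finset G.edgeSet)), F₀ ⊆ F' :=
    fun F₀ => hU (Filter.eventually_ge_atTop F₀)
  have hNe : (U : Filter (Finset G.edgeSet)).NeBot := U.neBot
  -- `h` is the supremum of its local versions
  have hsup : ∫⁻ ξ, ENNReal.ofReal (h ξ) ∂μ =
      ⨆ B : Finset G.edgeSet, ∫⁻ ω, ENNReal.ofReal (h (ω ∩ (B : Set G.edgeSet))) ∂μ := by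
    have hdir : Directed (· ≤ ·) fun (B : Finset G.edgeSet) (ω : Set G.edgeSet) =>
        ENNReal.ofReal (h (ω ∩ (B : Set G.edgeSet))) := by
      intro B B'
      refine ⟨B ∪ B', fun ω => ?_, fun ω => ?_⟩
      · refine ENNReal.ofReal_le_ofReal (hmono (Set.inter_subset_inter_right _ ?_))
        rw [Finset.coe_union]; exact Set.subset_union_left
      · refine ENNReal.ofReal_le_ofReal (hmono (Set.inter_subset_inter_right _ ?_))
        rw [Finset.coe_union]; exact Set.subset_union_right
    have hBm : ∀ B : Finset G.edgeSet, Measurable fun ω : Set G.edgeSet =>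
        ENNReal.ofReal (h (ω ∩ (B : Set G.edgeSet))) := by
      intro B
      refine (hmeas.comp ?_).ennreal_ofReal
      refine measurable_set_iff.mpr fun a => ?_
      refine measurableSet_setOfPred.mp ?_
      by_cases ha : a ∈ B
      · have : {ω : Set G.edgeSet | a ∈ ω ∩ (B : Set G.edgeSet)} = {ω | a ∈ ω} := by
          ext ω; simp [ha]
        rw [this]; exact measurableSet_mem a
      · have : {ω : Set G.edgeSet | a ∈ ω ∩ (B : Set G.edgeSet)} = ∅ := by
          ext ω; simp [ha]
        rw [this]; exact MeasurableSet.empty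
    rw [← lintegral_iSup_directed (fun B => (hBm B).aemeasurable) hdir]
    refine lintegral_congr fun ω => ?_
    refine le_antisymm ?_ (iSup_le fun B => ENNReal.ofReal_le_ofReal (hmono Set.inter_subset_left))
    obtain ⟨B, hB⟩ := Ek_stable hp hp1 hq F K ω
    refine le_trans (le_of_eq ?_) (le_iSup (fun B : Finset G.edgeSet =>
      ENNReal.ofReal (h (ω ∩ (B : Set G.edgeSet)))) B)
    rw [hh]
    beta_reduce
    rw [hB]
  rw [hsup]
  refine le_antisymm ?_ (iSup_le fun B => ?_)
  · -- upper bound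
    refine le_of_tendsto hcylK ?_
    filter_upwards [hge F] with F' hF'
    have h1 : Ek G p q F' ∅ (one G K) = Ek G p q F' ∅ (fun ω => h (ω ∩ (F' : Set G.edgeSet))) := by
      rw [← Ek_Ek hp hp1 hq hF' ∅ (one G K)]
      refine le_antisymm (Ek_mono hp hp1 hq F' ∅ fun η hη => le_of_eq ?_)
        (Ek_mono hp hp1 hq F' ∅ fun η hη => le_of_eq ?_)
      · rw [hh]
        beta_reduce
        congr 1
        ext e
        simp only [Set.empty_sdiff, Set.union_empty, Set.mem_inter_iff, Finset.mem_coe]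
        exact ⟨fun h => ⟨h, hη h⟩, fun h => h.1⟩
      · rw [hh]
        beta_reduce
        congr 1
        ext e
        simp only [Set.empty_sdiff, Set.union_empty, Set.mem_inter_iff, Finset.mem_coe]
        exact ⟨fun h => h.1, fun h => ⟨h, hη h⟩⟩
    rw [h1]
    refine le_trans ?_ (le_iSup (fun B : Finset G.edgeSet =>
      ∫⁻ ω, ENNReal.ofReal (h (ω ∩ (B : Set G.edgeSet))) ∂μ) F')
    refine ge_of_tendsto (hloc F' h hmeas h0) ?_
    filter_upwards [hge F'] with F'' hF''
    exact ENNReal.ofReal_le_ofReal (hincr _ (fun ω => h0 _)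
      (fun a b hab => hmono (Set.inter_subset_inter_left _ hab)) F' F'' hF'')
  · -- lower bound
    refine le_of_tendsto_of_tendsto (hloc B h hmeas h0) hcylK ?_
    filter_upwards [hge F] with F' hF'
    refine ENNReal.ofReal_le_ofReal ?_
    rw [← Ek_Ek hp hp1 hq hF' ∅ (one G K)]
    exact Ek_mono hp hp1 hq F' ∅ fun η _ => hmono Set.inter_subset_left

/-- Existence: every connected locally finite graph has a random-cluster infinite-volume measure,
for all `0 ≤ p ≤ 1` and `q ≥ 1`. -/
theorem exists_rc (hG : G.Connected) (hlf : ∀ v, (G.neighborSet v).Finite)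
    (hp : 0 ≤ p) (hp1 : p ≤ 1) (hq : 1 ≤ q) :
    ∃ μ : Measure (Set G.edgeSet), IsRandomCluster G p q μ :=
  exists_rc_of Pool.Agent.Helper6.UN.hLIM hG hlf hp hp1 hq

/-- If the wired and the free probability of every edge can be made arbitrarily close in finite
volume, then there is exactly one random-cluster infinite-volume measure. -/
theorem existsUnique_of_gap (hG : G.Connected) (hlf : ∀ v, (G.neighborSet v).Finite)
    (hp : 0 ≤ p) (hp1 : p ≤ 1) (hq : 1 ≤ q)
    (hgap : ∀ (e : G.edgeSet) (ε : ℝ), 0 < ε → ∃ F : Finset G.edgeSet, e ∈ F ∧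
      ex (φW G) (pW G p) q (Lf G F ∪ Rt G (BF G F)) (fun ω => if Sum.inl e ∈ ω then 1 else 0) -
      ex (φW G) (pW G p) q (Lf G F) (fun ω => if Sum.inl e ∈ ω then 1 else 0) ≤ ε) :
    ∃! μ : Measure (Set G.edgeSet), IsRandomCluster G p q μ := by
  obtain ⟨μ, hμ⟩ := exists_rc hG hlf hp hp1 hq
  refine ⟨μ, hμ, fun ν hν => unique_of_gp hp hp1 hq (fun e ε hε => ?_) hν hμ⟩
  obtain ⟨F, he, hF⟩ := hgap e ε hε
  exact ⟨F, (gp_le_wired_free hp hp1 hq he).trans hF⟩

end Pool.Agent.Helper88.UN
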