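import Pool.Agent.Helper88.UN.Exist
import Pool.Agent.Helper1.UQ.St2
import Pool.Agent.Helper98.UQ.Fin

/-!
# Project UQ (MP_e3e162_pr): from StZER to the final statement
-/

set_option autoImplicit false

open Finset MeasureTheory

namespace Pool.Agent.Helper88.UN

open Classical Pool.Agent.Helper30.RCU Pool.Agent.Helper1.UQ

universe u

/-- `StGAP` from `StZER` and the translation modules. -/
theorem gap_of_zer (hZER : StZER.{u}) (hCVT : StCVT.{u}) (hBND : StBND.{u}) (hISO : StISO.{u})
    (hTRV : StTRV.{u}) : StGAP.{u} := by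
  intro V G hG hlf htr ham p q hp hp1 hq hq2 e ε hε
  by_cases hp0 : p = 0 ∨ p = 1
  · exact ⟨{e}, mem_singleton_self _, (hTRV V G p q hp0 hq e).trans hε.le⟩
  push Not at hp0
  have hpp : 0 < p := lt_of_le_of_ne hp (Ne.symm hp0.1)
  have hpp1 : p < 1 := lt_of_le_of_ne hp1 hp0.2
  obtain ⟨o, o', hoo⟩ : ∃ o o', (e : Sym2 V) = s(o, o') := by
    induction h : (e : Sym2 V) using Sym2.ind with | _ a b => exact ⟨a, b, rfl⟩
  have hoe : o ∈ (e : Sym2 V) := hoo ▸ Sym2.mem_mk_left _ _
  have hoe' : o' ∈ (e : Sym2 V) := hoo ▸ Sym2.mem_mk_right _ _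
  have hB := hBND V G hlf p 0 q hp hp1 le_rfl zero_le_one hq
  obtain ⟨-, -, hB3, hB4, hB5⟩ := hB
  obtain ⟨-, -, -, -, hfw, -, -, -, hlim⟩ := hB5 e
  rcases eq_or_lt_of_le hfw with heq | hlt
  · -- the free and the wired probability agree
    obtain ⟨I0, hI0⟩ := hlim (ε / 2) (half_pos hε)
    set I : Finset V := insert o I0 with hI
    have heI : e ∈ te G I := (mem_te hlf).mpr ⟨o, hoe, mem_insert_self _ _⟩
    obtain ⟨h1, -, h3⟩ := hI0 I (subset_insert _ _)
    obtain ⟨c1, c2, -⟩ := hCVT V G hlf p q hp hp1 hq I e heI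
    refine ⟨te G I, heI, ?_⟩
    rw [c1]
    linarith
  · -- the wired measure does not percolate
    obtain ⟨c, hc⟩ : ∃ c : ℝ, c = ε / ((VF G {e}).card + 1) := ⟨_, rfl⟩
    have hcard : (0 : ℝ) < (VF G {e}).card + 1 := by positivity
    have hc0 : 0 < c := by rw [hc]; positivity
    obtain ⟨n, hn, hth⟩ := hZER V G hG hlf htr ham p q hpp hpp1 hq hq2 o
      ⟨e, (mem_te hlf).mpr ⟨o, hoe, mem_singleton_self _⟩, hlt⟩ c hc0
    obtain ⟨g, hg⟩ := htr o o'
    have hth' : th G p q (bl G o' n) o' ≤ c := by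
      have h1 := ((hISO V G hG hlf p 0 q hq g e).2.2.2.1 o n).2.2
      rw [hg] at h1
      rw [h1]
      exact hth
    set I : Finset V := bl G o n ∪ bl G o' n with hI
    have ho : o ∈ bl G o n := by
      rw [mem_bl hG hlf, SimpleGraph.dist_self]; exact hn
    have ho' : o' ∈ bl G o' n := by
      rw [mem_bl hG hlf, SimpleGraph.dist_self]; exact hn
    have hI1 : th G p q I o ≤ c := (hB4 (bl G o n) I o subset_union_left ho).trans hth
    have hI2 : th G p q I o' ≤ c := (hB4 (bl G o' n) I o' subset_union_right ho').trans hth'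
    have heI : e ∈ te G I := (mem_te hlf).mpr ⟨o, hoe, mem_union_left _ ho⟩
    obtain ⟨-, -, c3⟩ := hCVT V G hlf p q hp hp1 hq I e heI
    refine ⟨te G I, heI, ?_⟩
    set gg : Finset G.edgeSet → ℝ := fun η => if e ∈ η then 1 else 0 with hgg
    have hg0 : ∀ η, 0 ≤ gg η := fun η => by rw [hgg]; dsimp only; split_ifs <;> norm_num
    have hg1 : ∀ η, gg η ≤ 1 := fun η => by rw [hgg]; dsimp only; split_ifs <;> norm_num
    have hgm : Monotone gg := by
      intro a b hab
      rw [hgg]
      dsimp only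
      by_cases h : e ∈ a
      · rw [if_pos h, if_pos (hab h)]
      · rw [if_neg h]; split_ifs <;> norm_num
    have hgK : ∀ η, gg η = gg (η ∩ {e}) := by
      intro η
      rw [hgg]
      dsimp only
      have : e ∈ η ↔ e ∈ η ∩ {e} := by
        rw [mem_inter]
        exact ⟨fun h => ⟨h, mem_singleton_self _⟩, fun h => h.1⟩
      simp only [this]
    have key := wired_free Pool.Agent.Helper41.RCU.hMK G hp hp1 hq (te G I) {e}
      (singleton_subset_iff.mpr heI) gg hg0 hg1 hgm hgK c hc0.le ?_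
    · have hl : (fun ω : Finset (WE G) => gg ω.toLeft) =
          fun ω => if Sum.inl e ∈ ω then 1 else 0 := by
        funext ω
        rw [hgg]
        dsimp only
        by_cases h : (Sum.inl e : WE G) ∈ ω
        · rw [if_pos h, if_pos (Finset.mem_toLeft.mpr h)]
        · rw [if_neg h, if_neg (fun h' => h (Finset.mem_toLeft.mp h'))]
      rw [hl] at key
      have h1 : ((VF G {e}).card : ℝ) * c ≤ ε := by
        rw [hc, mul_div_assoc', div_le_iff₀ hcard]
        nlinarith
      linarith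
    · intro x hx z hz
      rw [mem_VF] at hx
      obtain ⟨e', he', hxe'⟩ := hx
      rw [mem_singleton] at he'
      subst he'
      rw [hoo, Sym2.mem_iff] at hxe'
      rcases hxe' with rfl | rfl
      · exact (c3 _ (mem_union_left _ ho) z hz).trans hI1
      · exact (c3 _ (mem_union_right _ ho') z hz).trans hI2

/-- The final statement from `StGAP`. -/
theorem fin0_of_gap (hGAP : StGAP.{u}) : Pool.Agent.Helper98.UQ.StFIN0.{u} := by
  intro V _ G hG hlf htr ham p q hp hp1 hq hq2
  exact existsUnique_of_gap hG hlf hp hp1 hq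
    (fun e ε hε => hGAP V G hG hlf htr ham p q hp hp1 hq hq2 e ε hε)

/-- The final statement from the modules. -/
theorem fin_of_zer (hZER : StZER.{u}) (hCVT : StCVT.{u}) (hBND : StBND.{u}) (hISO : StISO.{u})
    (hTRV : StTRV.{u}) : Pool.Agent.Helper98.UQ.StFIN.{u} :=
  Pool.Agent.Helper98.UQ.fin_of_fin0 (fin0_of_gap (gap_of_zer hZER hCVT hBND hISO hTRV))

end Pool.Agent.Helper88.UN
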