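import Pool.Agent.Helper30.RCU.Main

/-!
# Project UN (MP_e3e162_pr), infinite volume, part 1: consistency of the kernels

`Ek F ξ h` is the finite-volume expectation of a function `h` of the whole configuration, with
boundary condition `ξ` off `F`.
-/

set_option autoImplicit false

open Finset MeasureTheory

namespace Pool.Agent.Helper88.UN

open Classical Pool.Agent.Helper30.RCU

universe u

variable {V : Type u} {G : SimpleGraph V} {p q : ℝ}

/-- the end vertex map -/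
abbrev eφ (G : SimpleGraph V) : G.edgeSet → Sym2 V := fun e => (e : Sym2 V)

/-- the number of components which meet `U` and those which meet `U'` change in the same way when
edges with both ends in `U ∩ U'` are added -/
lemma kU_diff {ι : Type u} {φ : ι → Sym2 V} (U U' : Finset V) (ω : Set ι) (F₀ : Finset ι)
    (hU : ends φ F₀ ⊆ U) (hU' : ends φ F₀ ⊆ U') (η : Finset ι) (hη : η ⊆ F₀) :
    kU φ U' ((η : Set ι) ∪ ω) + kU φ U ω = kU φ U ((η : Set ι) ∪ ω) + kU φ U' ω := by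
  induction η using Finset.induction_on with
  | empty => simp [add_comm]
  | insert e η he ih =>
    have ih' := ih (fun x hx => hη (mem_insert_of_mem hx))
    obtain ⟨a, b, hab⟩ := exists_mk (φ := φ) e
    have heF : e ∈ F₀ := hη (mem_insert_self _ _)
    have ha : a ∈ ends φ F₀ := mem_ends.mpr ⟨e, heF, hab ▸ Sym2.mem_mk_left _ _⟩
    have hb : b ∈ ends φ F₀ := mem_ends.mpr ⟨e, heF, hab ▸ Sym2.mem_mk_right _ _⟩
    have h1 : ((insert e η : Finset ι) : Set ι) ∪ ω = insert e ((η : Set ι) ∪ ω) := by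
      rw [Finset.coe_insert, Set.insert_union]
    rw [h1]
    by_cases hc : Conn φ ((η : Set ι) ∪ ω) a b
    · rw [kU_insert_of_conn U hab hc, kU_insert_of_conn U' hab hc]
      exact ih'
    · have h2 := kU_insert_of_not_conn hab (hU ha) (hU hb) hc
      have h3 := kU_insert_of_not_conn hab (hU' ha) (hU' hb) hc
      omega

/-- expectation of a function of the configuration -/
noncomputable def Ek (G : SimpleGraph V) (p q : ℝ) (F : Finset G.edgeSet) (ξ : Set G.edgeSet)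
    (h : Set G.edgeSet → ℝ) : ℝ :=
  (∑ η ∈ F.powerset, weight G p q F ξ η * h ((η : Set G.edgeSet) ∪ (ξ \ (F : Set G.edgeSet)))) /
    ∑ η ∈ F.powerset, weight G p q F ξ η

/-- partition function -/
noncomputable def Zk (G : SimpleGraph V) (p q : ℝ) (F : Finset G.edgeSet) (ξ : Set G.edgeSet) : ℝ :=
  ∑ η ∈ F.powerset, weight G p q F ξ η

lemma weight_nonneg (hp : 0 ≤ p) (hp1 : p ≤ 1) (hq : 1 ≤ q) (F : Finset G.edgeSet)
    (ξ : Set G.edgeSet) (η : Finset G.edgeSet) : 0 ≤ weight G p q F ξ η := by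
  unfold weight
  have : 0 ≤ 1 - p := by linarith
  positivity

lemma Zk_pos (hp : 0 ≤ p) (hp1 : p ≤ 1) (hq : 1 ≤ q) (F : Finset G.edgeSet)
    (ξ : Set G.edgeSet) : 0 < Zk G p q F ξ := by
  have h1 : ∑ η ∈ F.powerset, p ^ η.card * (1 - p) ^ (F.card - η.card) = 1 := by
    rw [Finset.sum_pow_mul_eq_add_pow]
    simp
  have h2 : ∑ η ∈ F.powerset, p ^ η.card * (1 - p) ^ (F.card - η.card) ≤ Zk G p q F ξ := by
    unfold Zk weight
    refine Finset.sum_le_sum fun η _ => ?_
    have h3 : 0 ≤ p ^ η.card * (1 - p) ^ (F.card - η.card) := by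
      have : 0 ≤ 1 - p := by linarith
      positivity
    exact le_mul_of_one_le_right h3 (one_le_pow₀ hq)
  linarith

lemma Ek_def (F : Finset G.edgeSet) (ξ : Set G.edgeSet) (h : Set G.edgeSet → ℝ) :
    Ek G p q F ξ h = (∑ η ∈ F.powerset, weight G p q F ξ η *
      h ((η : Set G.edgeSet) ∪ (ξ \ (F : Set G.edgeSet)))) / Zk G p q F ξ := rfl

lemma Ek_congr_bc (F : Finset G.edgeSet) {ξ ξ' : Set G.edgeSet}
    (hξ : ξ \ (F : Set G.edgeSet) = ξ' \ (F : Set G.edgeSet)) (h : Set G.edgeSet → ℝ) :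
    Ek G p q F ξ h = Ek G p q F ξ' h := by
  unfold Ek weight
  rw [hξ]

lemma kernel_eq_Ek (F : Finset G.edgeSet) (ξ : Set G.edgeSet) (A : Set (Set G.edgeSet)) :
    kernel G p q F ξ A = Ek G p q F ξ (fun ω => if ω ∈ A then 1 else 0) := by
  unfold kernel Ek
  congr 1
  rw [Finset.sum_filter]
  refine Finset.sum_congr rfl fun η _ => ?_
  beta_reduce
  by_cases h : (η : Set G.edgeSet) ∪ (ξ \ (F : Set G.edgeSet)) ∈ A
  · rw [if_pos h, if_pos h, mul_one]
  · rw [if_neg h, if_neg h, mul_zero]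

/-- splitting of the weight -/
lemma weight_split (hq : 1 ≤ q) {F₀ F : Finset G.edgeSet} (hF : F₀ ⊆ F) (ξ : Set G.edgeSet)
    (η₁ : Finset G.edgeSet) (h1 : η₁ ⊆ F \ F₀) :
    ∃ c : ℝ, ∀ η₀ : Finset G.edgeSet, η₀ ⊆ F₀ → weight G p q F ξ (η₁ ∪ η₀) =
      c * weight G p q F₀ ((η₁ : Set G.edgeSet) ∪ (ξ \ (F : Set G.edgeSet))) η₀ := by
  set ω : Set G.edgeSet := (η₁ : Set G.edgeSet) ∪ (ξ \ (F : Set G.edgeSet)) with hω
  have hω0 : ω \ (F₀ : Set G.edgeSet) = ω := by
    rw [sdiff_eq_left, Set.disjoint_left]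
    rintro e (he | he) he0
    · exact (mem_sdiff.mp (h1 (by exact_mod_cast he))).2 (by exact_mod_cast he0)
    · exact he.2 (hF he0)
  have hq0 : (0 : ℝ) < q := by linarith
  refine ⟨p ^ η₁.card * (1 - p) ^ ((F \ F₀).card - η₁.card) *
    (q ^ clusters G F ω / q ^ clusters G F₀ ω), fun η₀ h0 => ?_⟩
  have hd : Disjoint η₁ η₀ := by
    rw [Finset.disjoint_left]
    intro e he he0
    exact (mem_sdiff.mp (h1 he)).2 (h0 he0)
  have hc1 : (η₁ ∪ η₀).card = η₁.card + η₀.card := Finset.card_union_of_disjoint hd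
  have hc2 : (F \ F₀).card = F.card - F₀.card := Finset.card_sdiff_of_subset hF
  have hc3 : η₁.card ≤ (F \ F₀).card := Finset.card_le_card h1
  have hc4 : η₀.card ≤ F₀.card := Finset.card_le_card h0
  have hc5 : F₀.card ≤ F.card := Finset.card_le_card hF
  have he1 : F.card - (η₁ ∪ η₀).card = ((F \ F₀).card - η₁.card) + (F₀.card - η₀.card) := by
    omega
  have hset : ((η₁ ∪ η₀ : Finset G.edgeSet) : Set G.edgeSet) ∪ (ξ \ (F : Set G.edgeSet)) =
      (η₀ : Set G.edgeSet) ∪ ω := by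
    rw [hω, Finset.coe_union]
    ext e
    simp only [Set.mem_union]
    tauto
  have hcl := kU_diff (φ := eφ G) (VF G F₀) (VF G F) ω F₀ subset_rfl (ends_mono hF) η₀ h0
  rw [← clusters_eq, ← clusters_eq, ← clusters_eq, ← clusters_eq] at hcl
  have hpow : q ^ clusters G F ((η₀ : Set G.edgeSet) ∪ ω) =
      q ^ clusters G F ω / q ^ clusters G F₀ ω * q ^ clusters G F₀ ((η₀ : Set G.edgeSet) ∪ ω) := by
    have h2 : q ^ clusters G F ((η₀ : Set G.edgeSet) ∪ ω) * q ^ clusters G F₀ ω =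
        q ^ clusters G F₀ ((η₀ : Set G.edgeSet) ∪ ω) * q ^ clusters G F ω := by
      rw [← pow_add, ← pow_add, hcl]
    have h3 : q ^ clusters G F₀ ω ≠ 0 := pow_ne_zero _ hq0.ne'
    field_simp
    linarith
  unfold weight
  rw [hω0, hset, hpow, he1, hc1, pow_add, pow_add]
  ring

/-- consistency of the kernels -/
theorem Ek_Ek (hp : 0 ≤ p) (hp1 : p ≤ 1) (hq : 1 ≤ q) {F₀ F : Finset G.edgeSet} (hF : F₀ ⊆ F)
    (ξ : Set G.edgeSet) (h : Set G.edgeSet → ℝ) :
    Ek G p q F ξ (fun ω => Ek G p q F₀ ω h) = Ek G p q F ξ h := by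
  rw [Ek_def, Ek_def]
  congr 1
  have hsum : ∀ g : Finset G.edgeSet → ℝ, ∑ η ∈ F.powerset, g η =
      ∑ η₁ ∈ (F \ F₀).powerset, ∑ η₀ ∈ F₀.powerset, g (η₁ ∪ η₀) := by
    intro g
    rw [← Finset.sum_product' (s := (F \ F₀).powerset) (t := F₀.powerset)
      (f := fun a b => g (a ∪ b))]
    symm
    refine Finset.sum_nbij' (i := fun z => z.1 ∪ z.2) (j := fun η => (η \ F₀, η ∩ F₀))
      ?_ ?_ ?_ ?_ ?_
    · rintro ⟨a, b⟩ hz
      rw [mem_product, mem_powerset, mem_powerset] at hz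
      refine mem_powerset.mpr (union_subset (hz.1.trans sdiff_subset) (hz.2.trans hF))
    · intro η hη
      have hη' := mem_powerset.mp hη
      refine mem_product.mpr ⟨mem_powerset.mpr ?_, mem_powerset.mpr inter_subset_right⟩
      exact sdiff_subset_sdiff hη' subset_rfl
    · rintro ⟨a, b⟩ hz
      rw [mem_product, mem_powerset, mem_powerset] at hz
      have h1 : ∀ e ∈ a, e ∉ F₀ := fun e he => (mem_sdiff.mp (hz.1 he)).2
      refine Prod.ext ?_ ?_
      · ext e
        simp only [mem_sdiff, mem_union]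
        constructor
        · rintro ⟨h2 | h2, h3⟩
          · exact h2
          · exact absurd (hz.2 h2) h3
        · exact fun h2 => ⟨Or.inl h2, h1 e h2⟩
      · ext e
        simp only [mem_inter, mem_union]
        constructor
        · rintro ⟨h2 | h2, h3⟩
          · exact absurd h3 (h1 e h2)
          · exact h2
        · exact fun h2 => ⟨Or.inr h2, hz.2 h2⟩
    · intro η _
      exact sdiff_union_inter η F₀
    · intro z _
      rfl
  rw [hsum, hsum]
  refine Finset.sum_congr rfl fun η₁ h1 => ?_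
  have h1' := mem_powerset.mp h1
  obtain ⟨c, hc⟩ := weight_split (p := p) hq hF ξ η₁ h1'
  set ω : Set G.edgeSet := (η₁ : Set G.edgeSet) ∪ (ξ \ (F : Set G.edgeSet)) with hω
  have hω0 : ω \ (F₀ : Set G.edgeSet) = ω := by
    rw [sdiff_eq_left, Set.disjoint_left]
    rintro e (he | he) he0
    · exact (mem_sdiff.mp (h1' (by exact_mod_cast he))).2 (by exact_mod_cast he0)
    · exact he.2 (hF he0)
  have hset : ∀ η₀ : Finset G.edgeSet, ((η₁ ∪ η₀ : Finset G.edgeSet) : Set G.edgeSet) ∪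
      (ξ \ (F : Set G.edgeSet)) = (η₀ : Set G.edgeSet) ∪ ω := by
    intro η₀
    rw [hω, Finset.coe_union]
    ext e
    simp only [Set.mem_union]
    tauto
  have hbc : ∀ η₀ : Finset G.edgeSet, η₀ ⊆ F₀ → Ek G p q F₀ ((η₀ : Set G.edgeSet) ∪ ω) h =
      Ek G p q F₀ ω h := by
    intro η₀ h0
    refine Ek_congr_bc F₀ ?_ h
    ext e
    simp only [Set.mem_sdiff, Set.mem_union]
    constructor
    · rintro ⟨h2 | h2, h3⟩
      · exact absurd (h0 (by exact_mod_cast h2)) h3
      · exact ⟨h2, h3⟩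
    · exact fun h2 => ⟨Or.inr h2.1, h2.2⟩
  have e1 : ∑ η₀ ∈ F₀.powerset, weight G p q F ξ (η₁ ∪ η₀) *
      Ek G p q F₀ (((η₁ ∪ η₀ : Finset G.edgeSet) : Set G.edgeSet) ∪ (ξ \ (F : Set G.edgeSet))) h =
      c * (Zk G p q F₀ ω * Ek G p q F₀ ω h) := by
    rw [Zk, Finset.sum_mul, Finset.mul_sum]
    refine Finset.sum_congr rfl fun η₀ h0 => ?_
    rw [hset, hbc η₀ (mem_powerset.mp h0), hc η₀ (mem_powerset.mp h0)]
    ring
  rw [e1, Ek_def, mul_div_cancel₀ _ (Zk_pos hp hp1 hq F₀ ω).ne', Finset.mul_sum]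
  refine Finset.sum_congr rfl fun η₀ h0 => ?_
  rw [hset, hc η₀ (mem_powerset.mp h0), hω0]
  ring

end Pool.Agent.Helper88.UN
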