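import Pool.Agent.Helper88.UN.Uniq

/-!
# Project UN (MP_e3e162_pr), infinite volume, part 3: measurability of the kernels
-/

set_option autoImplicit false

open Finset MeasureTheory

namespace Pool.Agent.Helper88.UN

open Classical Pool.Agent.Helper30.RCU

universe u

variable {V : Type u} {G : SimpleGraph V} {p q : ℝ}

lemma countable_V (hG : G.Connected) (hlf : ∀ v, (G.neighborSet v).Finite) : Countable V := by
  obtain ⟨x⟩ := hG.nonempty
  have h1 : (Set.univ : Set V) = ⋃ n : ℕ, {v | G.dist x v ≤ n} := by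
    ext v
    simp only [Set.mem_univ, Set.mem_iUnion, true_iff]
    exact ⟨G.dist x v, Set.mem_ofPred_eq.mpr (le_refl _)⟩
  have h2 : (Set.univ : Set V).Countable := by
    rw [h1]
    exact Set.countable_iUnion fun n => (ball_finite hG hlf x n).countable
  exact Set.countable_univ_iff.mp h2

lemma countable_E (hG : G.Connected) (hlf : ∀ v, (G.neighborSet v).Finite) :
    Countable G.edgeSet := by
  have := countable_V hG hlf
  have h1 : Countable (Sym2 V) := Quotient.countable
  exact Subtype.countable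

/-- a connection uses finitely many edges -/
lemma conn_finite {ι : Type u} {φ : ι → Sym2 V} {ω : Set ι} {x y : V} (h : Conn φ ω x y) :
    ∃ B : Finset ι, (B : Set ι) ⊆ ω ∧ Conn φ (B : Set ι) x y := by
  obtain ⟨w⟩ := h
  induction w with
  | nil => exact ⟨∅, by simp, Conn.refl _ _⟩
  | @cons a b c hadj _ ih =>
    obtain ⟨B, hB, hc⟩ := ih
    rw [gr, SimpleGraph.fromEdgeSet_adj] at hadj
    obtain ⟨⟨e, he, hee⟩, -⟩ := hadj
    refine ⟨insert e B, ?_, ?_⟩
    · rw [Finset.coe_insert]
      exact Set.insert_subset he hB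
    · refine Conn.trans (conn_of_mem (e := e) hee ?_) (hc.mono ?_)
      · rw [Finset.coe_insert]; exact Set.mem_insert _ _
      · rw [Finset.coe_insert]; exact Set.subset_insert _ _

lemma measurable_conn [Countable G.edgeSet] (x y : V) :
    MeasurableSet {ω : Set G.edgeSet | Conn (eφ G) ω x y} := by
  have h1 : {ω : Set G.edgeSet | Conn (eφ G) ω x y} =
      ⋃ B : Finset G.edgeSet, {ω : Set G.edgeSet | Conn (eφ G) (ω ∩ (B : Set G.edgeSet)) x y} := by
    ext ω
    simp only [Set.mem_ofPred_eq, Set.mem_iUnion]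
    constructor
    · intro h
      obtain ⟨B, hB, hc⟩ := conn_finite h
      exact ⟨B, hc.mono (Set.subset_inter hB subset_rfl)⟩
    · rintro ⟨B, h⟩
      exact h.mono Set.inter_subset_left
  rw [h1]
  exact MeasurableSet.iUnion fun B => measurable_local B fun ω => Conn (eφ G) ω x y

lemma kU_insert_v {ι : Type u} {φ : ι → Sym2 V} (U : Finset V) (v : V) (ω : Set ι) :
    kU φ (insert v U) ω = kU φ U ω + if (∃ u ∈ U, Conn φ ω u v) then 0 else 1 := by
  unfold kU
  rw [Finset.image_insert]
  by_cases h : ∃ u ∈ U, Conn φ ω u v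
  · rw [if_pos h, add_zero]
    obtain ⟨u, hu, hc⟩ := h
    rw [Finset.insert_eq_of_mem]
    exact Finset.mem_image.mpr ⟨u, hu, mk_eq.mpr hc⟩
  · rw [if_neg h, Finset.card_insert_of_notMem]
    intro hm
    obtain ⟨u, hu, huv⟩ := Finset.mem_image.mp hm
    exact h ⟨u, hu, mk_eq.mp huv⟩

lemma measurable_kU [Countable G.edgeSet] (U : Finset V) :
    Measurable fun ω : Set G.edgeSet => kU (eφ G) U ω := by
  induction U using Finset.induction_on with
  | empty =>
    have : (fun ω : Set G.edgeSet => kU (eφ G) ∅ ω) = fun _ => 0 := by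
      funext ω; unfold kU; simp
    rw [this]; exact measurable_const
  | insert v U _ ih =>
    have h1 : (fun ω : Set G.edgeSet => kU (eφ G) (insert v U) ω) = fun ω =>
        kU (eφ G) U ω + if (∃ u ∈ U, Conn (eφ G) ω u v) then 0 else 1 := by
      funext ω; exact kU_insert_v U v ω
    rw [h1]
    refine ih.add (Measurable.ite ?_ measurable_const measurable_const)
    have h2 : {ω : Set G.edgeSet | ∃ u ∈ U, Conn (eφ G) ω u v} =
        ⋃ u ∈ U, {ω : Set G.edgeSet | Conn (eφ G) ω u v} := by
      ext ω; simp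
    rw [h2]
    exact Finset.measurableSet_biUnion _ fun u _ => measurable_conn u v

lemma measurable_bc (F : Finset G.edgeSet) (η : Finset G.edgeSet) :
    Measurable fun ξ : Set G.edgeSet => (η : Set G.edgeSet) ∪ (ξ \ (F : Set G.edgeSet)) := by
  refine measurable_set_iff.mpr fun a => ?_
  refine measurableSet_setOfPred.mp ?_
  by_cases h1 : a ∈ η
  · have : {ξ : Set G.edgeSet | a ∈ (η : Set G.edgeSet) ∪ (ξ \ (F : Set G.edgeSet))} =
        Set.univ := by
      ext ξ
      simp [h1]
    rw [this]; exact MeasurableSet.univ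
  · by_cases h2 : a ∈ F
    · have : {ξ : Set G.edgeSet | a ∈ (η : Set G.edgeSet) ∪ (ξ \ (F : Set G.edgeSet))} =
          ∅ := by
        ext ξ
        simp [h1, h2]
      rw [this]; exact MeasurableSet.empty
    · have : {ξ : Set G.edgeSet | a ∈ (η : Set G.edgeSet) ∪ (ξ \ (F : Set G.edgeSet))} =
          {ξ : Set G.edgeSet | a ∈ ξ} := by
        ext ξ
        simp [h1, h2]
      rw [this]; exact measurableSet_mem a

lemma measurable_weight [Countable G.edgeSet] (F η : Finset G.edgeSet) :
    Measurable fun ξ : Set G.edgeSet => weight G p q F ξ η := by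
  unfold weight
  refine Measurable.const_mul ?_ _
  have h1 : Measurable fun ξ : Set G.edgeSet =>
      clusters G F ((η : Set G.edgeSet) ∪ (ξ \ (F : Set G.edgeSet))) := by
    have h2 : (fun ω : Set G.edgeSet => clusters G F ω) = fun ω => kU (eφ G) (VF G F) ω := by
      funext ω; exact clusters_eq F ω
    have h3 : Measurable fun ω : Set G.edgeSet => clusters G F ω := by
      rw [h2]; exact measurable_kU _
    exact h3.comp (measurable_bc F η)
  exact (measurable_from_top (f := fun n : ℕ => q ^ n)).comp h1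

lemma measurable_Ek [Countable G.edgeSet] (F : Finset G.edgeSet) {h : Set G.edgeSet → ℝ}
    (hh : Measurable h) : Measurable fun ξ : Set G.edgeSet => Ek G p q F ξ h := by
  unfold Ek
  refine Measurable.div ?_ ?_
  · exact Finset.measurable_sum _ fun η _ =>
      (measurable_weight F η).mul (hh.comp (measurable_bc F η))
  · exact Finset.measurable_sum _ fun η _ => measurable_weight F η

/-- the kernel as a measure -/
noncomputable def kap (G : SimpleGraph V) (p q : ℝ) (F : Finset G.edgeSet) (ξ : Set G.edgeSet) :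
    Measure (Set G.edgeSet) :=
  ∑ η ∈ F.powerset, ENNReal.ofReal (weight G p q F ξ η / Zk G p q F ξ) •
    Measure.dirac ((η : Set G.edgeSet) ∪ (ξ \ (F : Set G.edgeSet)))

lemma lintegral_kap (hp : 0 ≤ p) (hp1 : p ≤ 1) (hq : 1 ≤ q) (F : Finset G.edgeSet)
    (ξ : Set G.edgeSet) {h : Set G.edgeSet → ℝ} (hh : Measurable h) (h0 : ∀ ω, 0 ≤ h ω) :
    ∫⁻ ω, ENNReal.ofReal (h ω) ∂(kap G p q F ξ) = ENNReal.ofReal (Ek G p q F ξ h) := by
  unfold kap
  rw [lintegral_finsetSum_measure, Ek_def, Finset.sum_div, ENNReal.ofReal_sum_of_nonneg]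
  · refine Finset.sum_congr rfl fun η _ => ?_
    rw [lintegral_smul_measure, lintegral_dirac' _ (hh.ennreal_ofReal), smul_eq_mul,
      ← ENNReal.ofReal_mul]
    · congr 1
      ring
    · exact div_nonneg (weight_nonneg hp hp1 hq F ξ η) (Zk_pos hp hp1 hq F ξ).le
  · intro η _
    exact div_nonneg (mul_nonneg (weight_nonneg hp hp1 hq F ξ η) (h0 _))
      (Zk_pos hp hp1 hq F ξ).le

lemma kap_apply (hp : 0 ≤ p) (hp1 : p ≤ 1) (hq : 1 ≤ q) (F : Finset G.edgeSet)
    (ξ : Set G.edgeSet) {A : Set (Set G.edgeSet)} (hA : MeasurableSet A) :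
    kap G p q F ξ A = ENNReal.ofReal (kernel G p q F ξ A) := by
  have hm : Measurable (fun ω : Set G.edgeSet => if ω ∈ A then (1 : ℝ) else 0) :=
    Measurable.ite hA measurable_const measurable_const
  rw [kernel_eq_Ek, ← lintegral_kap hp hp1 hq F ξ hm (fun ω => by split_ifs <;> norm_num),
    ← lintegral_indicator_one hA]
  refine lintegral_congr fun ω => ?_
  by_cases h : ω ∈ A
  · rw [Set.indicator_of_mem h, if_pos h]; simp
  · rw [Set.indicator_of_notMem h, if_neg h]; simp

lemma kap_prob (hp : 0 ≤ p) (hp1 : p ≤ 1) (hq : 1 ≤ q) (F : Finset G.edgeSet)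
    (ξ : Set G.edgeSet) : IsProbabilityMeasure (kap G p q F ξ) := by
  constructor
  rw [kap_apply hp hp1 hq F ξ MeasurableSet.univ, kernel_eq_Ek]
  simp only [Set.mem_univ, if_true]
  rw [Ek_const hp hp1 hq, ENNReal.ofReal_one]

lemma measurable_kap [Countable G.edgeSet] (hp : 0 ≤ p) (hp1 : p ≤ 1) (hq : 1 ≤ q)
    (F : Finset G.edgeSet) : Measurable fun ξ : Set G.edgeSet => kap G p q F ξ := by
  refine Measure.measurable_of_measurable_coe _ fun A hA => ?_
  simp only [kap_apply hp hp1 hq F _ hA]
  refine Measurable.ennreal_ofReal ?_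
  simp only [kernel_eq_Ek]
  exact measurable_Ek F (Measurable.ite hA measurable_const measurable_const)

/-- The DLR equation for the increasing cylinder events is enough. -/
theorem dlr_of_cyl [Countable G.edgeSet] (hp : 0 ≤ p) (hp1 : p ≤ 1) (hq : 1 ≤ q)
    {μ : Measure (Set G.edgeSet)} (hμ : IsProbabilityMeasure μ)
    (h : ∀ F K : Finset G.edgeSet,
      μ (cyl G K) = ∫⁻ ξ, ENNReal.ofReal (Ek G p q F ξ (one G K)) ∂μ) :
    IsRandomCluster G p q μ := by
  refine ⟨hμ, fun F A hA => ?_⟩
  have hκ := measurable_kap (G := G) hp hp1 hq F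
  have hb : ∀ A, MeasurableSet A → (μ.bind (kap G p q F)) A =
      ∫⁻ ξ, ENNReal.ofReal (kernel G p q F ξ A) ∂μ := by
    intro A hA
    rw [Measure.bind_apply hA hκ.aemeasurable]
    exact lintegral_congr fun ξ => kap_apply hp hp1 hq F ξ hA
  have hprob : IsProbabilityMeasure (μ.bind (kap G p q F)) := by
    constructor
    rw [hb _ MeasurableSet.univ]
    have h1 : ∀ ξ : Set G.edgeSet, ENNReal.ofReal (kernel G p q F ξ Set.univ) = 1 := by
      intro ξ
      rw [← kap_apply hp hp1 hq F ξ MeasurableSet.univ]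
      exact (kap_prob hp hp1 hq F ξ).measure_univ
    simp only [h1, lintegral_const, measure_univ, mul_one]
  have heq : μ = μ.bind (kap G p q F) := by
    refine ext_cyl hμ hprob fun K => ?_
    rw [hb _ (measurable_cyl K), h F K]
    exact lintegral_congr fun ξ => by rw [kernel_cyl]
  rw [← hb A hA, ← heq]

end Pool.Agent.Helper88.UN
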