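import Mathlib

/-!
# Project UN/UQ (MP_e3e162_pr), infinite volume: statement of the module LIM
-/

set_option autoImplicit false

open MeasureTheory

namespace Pool.Agent.Helper88.UN

universe u

/-- Compactness: a family of probability measures on the subsets of a countable set has a limit
along an ultrafilter finer than `atTop`, for all local events.
Proof: transport to `ι → Bool` by the measurable equivalence, `CompactSpace (ProbabilityMeasure _)`,
local events are clopen. -/
def StLIM : Prop := ∀ (ι : Type u) [Countable ι] (m : Finset ι → Measure (Set ι)),
  (∀ F, IsProbabilityMeasure (m F)) →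
  ∃ (U : Ultrafilter (Finset ι)) (μ : Measure (Set ι)), (U : Filter (Finset ι)) ≤ Filter.atTop ∧
    IsProbabilityMeasure μ ∧ ∀ (K : Finset ι) (P : Set ι → Prop),
      Filter.Tendsto (fun F => m F {ω | P (ω ∩ (K : Set ι))}) (U : Filter (Finset ι))
        (nhds (μ {ω | P (ω ∩ (K : Set ι))}))

end Pool.Agent.Helper88.UN
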