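import Pool.Agent.Helper88.UN.Ker

/-!
# Project UN (MP_e3e162_pr), infinite volume, part 2: monotonicity and uniqueness
-/

set_option autoImplicit false

open Finset MeasureTheory

namespace Pool.Agent.Helper88.UN

open Classical Pool.Agent.Helper30.RCU

universe u

variable {V : Type u} {G : SimpleGraph V} {p q : ℝ}

lemma Ek_eq_kI (F : Finset G.edgeSet) (ξ : Set G.edgeSet) (h : Set G.edgeSet → ℝ) :
    Ek G p q F ξ h = kI G p q F ξ (fun η => h ((η : Set G.edgeSet) ∪ (ξ \ (F : Set G.edgeSet)))) := by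
  have hw : ∀ η, weight G p q F ξ η = wI G p q F ξ η := by
    intro η
    unfold weight wI
    rw [clusters_eq]
  unfold Ek kI
  simp only [hw]

lemma Ek_mono (hp : 0 ≤ p) (hp1 : p ≤ 1) (hq : 1 ≤ q) (F : Finset G.edgeSet)
    (ξ : Set G.edgeSet) {h h' : Set G.edgeSet → ℝ}
    (hh : ∀ η : Finset G.edgeSet, η ⊆ F → h ((η : Set G.edgeSet) ∪ (ξ \ (F : Set G.edgeSet))) ≤
      h' ((η : Set G.edgeSet) ∪ (ξ \ (F : Set G.edgeSet)))) :
    Ek G p q F ξ h ≤ Ek G p q F ξ h' := by
  rw [Ek_def, Ek_def]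
  refine div_le_div_of_nonneg_right (Finset.sum_le_sum fun η hη => ?_) (Zk_pos hp hp1 hq F ξ).le
  exact mul_le_mul_of_nonneg_left (hh η (mem_powerset.mp hη)) (weight_nonneg hp hp1 hq F ξ η)

lemma Ek_const (hp : 0 ≤ p) (hp1 : p ≤ 1) (hq : 1 ≤ q) (F : Finset G.edgeSet)
    (ξ : Set G.edgeSet) (c : ℝ) : Ek G p q F ξ (fun _ => c) = c := by
  rw [Ek_def, ← Finset.sum_mul]
  exact mul_div_cancel_left₀ c (Zk_pos hp hp1 hq F ξ).ne'

lemma Ek_sub (F : Finset G.edgeSet) (ξ : Set G.edgeSet) (h h' : Set G.edgeSet → ℝ) :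
    Ek G p q F ξ (fun ω => h ω - h' ω) = Ek G p q F ξ h - Ek G p q F ξ h' := by
  rw [Ek_def, Ek_def, Ek_def, ← sub_div, ← Finset.sum_sub_distrib]
  simp only [mul_sub]

lemma Ek_sum {ι : Type u} (s : Finset ι) (F : Finset G.edgeSet) (ξ : Set G.edgeSet)
    (h : ι → Set G.edgeSet → ℝ) :
    Ek G p q F ξ (fun ω => ∑ i ∈ s, h i ω) = ∑ i ∈ s, Ek G p q F ξ (h i) := by
  simp only [Ek_def]
  rw [← Finset.sum_div, Finset.sum_comm]
  simp only [Finset.mul_sum]

/-- monotonicity in the boundary condition -/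
lemma Ek_mono_bc (hp : 0 ≤ p) (hp1 : p ≤ 1) (hq : 1 ≤ q) (F : Finset G.edgeSet)
    {ξ ξ' : Set G.edgeSet} (hξ : ξ ⊆ ξ') {h : Set G.edgeSet → ℝ} (h0 : ∀ ω, 0 ≤ h ω)
    (hm : Monotone h) : Ek G p q F ξ h ≤ Ek G p q F ξ' h := by
  have hP := pW_nonneg G hp
  have hP1 := pW_le_one G hp1
  rw [Ek_eq_kI, Ek_eq_kI, Pool.Agent.Helper37.RCU.hCB V G p q hp hp1 hq F ξ,
    Pool.Agent.Helper37.RCU.hCB V G p q hp hp1 hq F ξ']
  refine (ex_le hP hP1 hq _ (g := fun ω : Finset (WE G) => h ((ω.toLeft : Set G.edgeSet) ∪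
    (ξ' \ (F : Set G.edgeSet)))) fun ω => ?_).trans ?_
  · exact hm (Set.union_subset_union_right _ (Set.sdiff_subset_sdiff_left hξ))
  · refine ex_mono_set hP hP1 hq ?_ (fun ω => h0 _) ?_
    · refine union_subset_union_right ?_
      unfold Kx
      rw [Finset.map_subset_map]
      intro z hz
      rw [mem_filter] at hz ⊢
      exact ⟨hz.1, hz.2.mono (Set.sdiff_subset_sdiff_left hξ)⟩
    · intro a b hab
      refine hm (Set.union_subset_union_left _ ?_)
      exact_mod_cast toLeft_mono hab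

/-- indicator of the increasing cylinder event -/
noncomputable def one (G : SimpleGraph V) (K : Finset G.edgeSet) (ω : Set G.edgeSet) : ℝ :=
  if (K : Set G.edgeSet) ⊆ ω then 1 else 0

lemma one_nonneg (K : Finset G.edgeSet) (ω : Set G.edgeSet) : 0 ≤ one G K ω := by
  unfold one; split_ifs <;> norm_num

lemma one_le_one (K : Finset G.edgeSet) (ω : Set G.edgeSet) : one G K ω ≤ 1 := by
  unfold one; split_ifs <;> norm_num

lemma one_mono (K : Finset G.edgeSet) : Monotone (one G K) := by
  intro a b hab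
  unfold one
  by_cases h : (K : Set G.edgeSet) ⊆ a
  · rw [if_pos h, if_pos (h.trans hab)]
  · rw [if_neg h]; split_ifs <;> norm_num

lemma kernel_cyl (F K : Finset G.edgeSet) (ξ : Set G.edgeSet) :
    kernel G p q F ξ (cyl G K) = Ek G p q F ξ (one G K) := by
  rw [kernel_eq_Ek]
  rfl

/-- the sum of the edge indicators minus the indicator of `K` is increasing -/
lemma sum_sub_mono {K : Finset G.edgeSet} (hK : K.Nonempty) :
    (∀ ω, 0 ≤ ∑ e ∈ K, one G {e} ω - one G K ω) ∧
    Monotone (fun ω => ∑ e ∈ K, one G {e} ω - one G K ω) := by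
  have hone : ∀ e ω, one G {e} ω = if e ∈ ω then 1 else 0 := by
    intro e ω
    unfold one
    simp
  constructor
  · intro ω
    obtain ⟨e, he⟩ := hK
    have h1 : one G {e} ω ≤ ∑ e ∈ K, one G {e} ω :=
      Finset.single_le_sum (f := fun e => one G {e} ω) (fun e _ => one_nonneg _ _) he
    have h2 : one G K ω ≤ one G {e} ω := by
      rw [hone]
      unfold one
      by_cases h : (K : Set G.edgeSet) ⊆ ω
      · rw [if_pos h, if_pos (h (by exact_mod_cast he))]
      · rw [if_neg h]; split_ifs <;> norm_num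
    linarith
  · intro a b hab
    beta_reduce
    by_cases hb : (K : Set G.edgeSet) ⊆ b
    · by_cases ha : (K : Set G.edgeSet) ⊆ a
      · have h1 : one G K a = one G K b := by
          unfold one; rw [if_pos ha, if_pos hb]
        have h2 : ∑ e ∈ K, one G {e} a ≤ ∑ e ∈ K, one G {e} b :=
          Finset.sum_le_sum fun e _ => one_mono _ hab
        linarith
      · obtain ⟨e, heK, hea⟩ := Set.not_subset.mp ha
        have heK' : e ∈ K := by exact_mod_cast heK
        have h1 : one G K a = 0 := by unfold one; rw [if_neg ha]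
        have h2 : one G K b = 1 := by unfold one; rw [if_pos hb]
        have h3 : ∑ x ∈ K.erase e, one G {x} a ≤ ∑ x ∈ K.erase e, one G {x} b :=
          Finset.sum_le_sum fun e _ => one_mono _ hab
        have h4 : one G {e} a = 0 := by rw [hone, if_neg hea]
        have h5 : one G {e} b = 1 := by rw [hone, if_pos (hb heK)]
        have h6 := Finset.add_sum_erase K (fun x => one G {x} a) heK'
        have h7 := Finset.add_sum_erase K (fun x => one G {x} b) heK'
        beta_reduce at h6 h7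
        linarith
    · have ha : ¬ (K : Set G.edgeSet) ⊆ a := fun h => hb (h.trans hab)
      have h1 : one G K a = 0 := by unfold one; rw [if_neg ha]
      have h2 : one G K b = 0 := by unfold one; rw [if_neg hb]
      have h3 : ∑ e ∈ K, one G {e} a ≤ ∑ e ∈ K, one G {e} b :=
        Finset.sum_le_sum fun e _ => one_mono _ hab
      linarith

/-- the wired minus the free probability of the increasing cylinder event `K`, in `F` -/
noncomputable def gp (G : SimpleGraph V) (p q : ℝ) (F K : Finset G.edgeSet) : ℝ :=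
  Ek G p q F Set.univ (one G K) - Ek G p q F ∅ (one G K)

lemma gp_le_sum (hp : 0 ≤ p) (hp1 : p ≤ 1) (hq : 1 ≤ q) (F K : Finset G.edgeSet) :
    gp G p q F K ≤ ∑ e ∈ K, gp G p q F {e} := by
  rcases K.eq_empty_or_nonempty with rfl | hK
  · have h1 : one G (∅ : Finset G.edgeSet) = fun _ => 1 := by
      funext ω; unfold one; simp
    unfold gp
    rw [h1, Ek_const hp hp1 hq, Ek_const hp hp1 hq]
    simp
  · obtain ⟨h0, hm⟩ := sum_sub_mono (G := G) hK
    have h1 := Ek_mono_bc hp hp1 hq F (Set.empty_subset Set.univ) h0 hm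
    rw [Ek_sub, Ek_sub, Ek_sum, Ek_sum] at h1
    unfold gp
    rw [Finset.sum_sub_distrib]
    linarith

/-- the gap decreases in the edge set -/
lemma gp_anti (hp : 0 ≤ p) (hp1 : p ≤ 1) (hq : 1 ≤ q) {F F' : Finset G.edgeSet} (hF : F ⊆ F')
    (K : Finset G.edgeSet) : gp G p q F' K ≤ gp G p q F K := by
  unfold gp
  have h1 : Ek G p q F' Set.univ (one G K) ≤ Ek G p q F Set.univ (one G K) := by
    rw [← Ek_Ek hp hp1 hq hF Set.univ (one G K)]
    refine (Ek_mono hp hp1 hq F' Set.univ (h' := fun _ => Ek G p q F Set.univ (one G K))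
      fun η _ => ?_).trans (Ek_const hp hp1 hq F' Set.univ _).le
    exact Ek_mono_bc hp hp1 hq F (Set.subset_univ _) (one_nonneg K) (one_mono K)
  have h2 : Ek G p q F ∅ (one G K) ≤ Ek G p q F' ∅ (one G K) := by
    rw [← Ek_Ek hp hp1 hq hF ∅ (one G K)]
    refine (Ek_const hp hp1 hq F' ∅ _).symm.le.trans (Ek_mono hp hp1 hq F' ∅
      (h := fun _ => Ek G p q F ∅ (one G K)) fun η _ => ?_)
    exact Ek_mono_bc hp hp1 hq F (Set.empty_subset _) (one_nonneg K) (one_mono K)
  linarith

/-- comparison with the wired and free laws of `RCU.Sand` -/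
lemma gp_le_wired_free (hp : 0 ≤ p) (hp1 : p ≤ 1) (hq : 1 ≤ q) {F : Finset G.edgeSet}
    {e : G.edgeSet} (he : e ∈ F) :
    gp G p q F {e} ≤
      ex (φW G) (pW G p) q (Lf G F ∪ Rt G (BF G F)) (fun ω => if Sum.inl e ∈ ω then 1 else 0) -
      ex (φW G) (pW G p) q (Lf G F) (fun ω => if Sum.inl e ∈ ω then 1 else 0) := by
  set g : Finset G.edgeSet → ℝ := fun η => if e ∈ η then 1 else 0 with hg
  have hg0 : ∀ η, 0 ≤ g η := fun η => by rw [hg]; dsimp only; split_ifs <;> norm_num
  have hgm : Monotone g := by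
    intro a b hab
    rw [hg]
    dsimp only
    by_cases h : e ∈ a
    · rw [if_pos h, if_pos (hab h)]
    · rw [if_neg h]; split_ifs <;> norm_num
  have hk : ∀ ξ, Ek G p q F ξ (one G {e}) = kI G p q F ξ g := by
    intro ξ
    rw [Ek_eq_kI]
    congr 1
    funext η
    unfold one
    rw [hg]
    dsimp only
    have h1 : (({e} : Finset G.edgeSet) : Set G.edgeSet) ⊆ (η : Set G.edgeSet) ∪
        (ξ \ (F : Set G.edgeSet)) ↔ e ∈ η := by
      rw [Finset.coe_singleton, Set.singleton_subset_iff]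
      constructor
      · rintro (h | h)
        · exact_mod_cast h
        · exact absurd he h.2
      · intro h
        exact Or.inl (by exact_mod_cast h)
    by_cases h : e ∈ η
    · rw [if_pos h, if_pos (h1.mpr h)]
    · rw [if_neg h, if_neg (fun h' => h (h1.mp h'))]
  have hs := fun ξ => sandwich Pool.Agent.Helper37.RCU.hCB G hp hp1 hq F ξ g hg0 hgm
  have hl : (fun ω : Finset (WE G) => g ω.toLeft) = fun ω => if Sum.inl e ∈ ω then 1 else 0 := by
    funext ω
    rw [hg]
    dsimp only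
    by_cases h : (Sum.inl e : WE G) ∈ ω
    · rw [if_pos h, if_pos (Finset.mem_toLeft.mpr h)]
    · rw [if_neg h, if_neg (fun h' => h (Finset.mem_toLeft.mp h'))]
  rw [hl] at hs
  unfold gp
  rw [hk, hk]
  have h1 := (hs Set.univ).2
  have h2 := (hs ∅).1
  linarith

/-- The uniqueness theorem. -/
theorem unique_of_gp (hp : 0 ≤ p) (hp1 : p ≤ 1) (hq : 1 ≤ q)
    (hgap : ∀ (e : G.edgeSet) (ε : ℝ), 0 < ε → ∃ F : Finset G.edgeSet, gp G p q F {e} ≤ ε)
    {μ ν : Measure (Set G.edgeSet)} (hμ : IsRandomCluster G p q μ)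
    (hν : IsRandomCluster G p q ν) : μ = ν := by
  have hle : ∀ μ ν : Measure (Set G.edgeSet), IsRandomCluster G p q μ →
      IsRandomCluster G p q ν → ∀ K : Finset G.edgeSet, μ (cyl G K) ≤ ν (cyl G K) := by
    intro μ ν hμ hν K
    have hk : ∀ ε : ℝ, 0 < ε → μ (cyl G K) ≤ ν (cyl G K) + ENNReal.ofReal ε := by
      intro ε hε
      -- one finite set for all the edges of `K`
      have hd : 0 < ε / (K.card + 1) := by positivity
      choose F hF using fun e : G.edgeSet => hgap e (ε / (K.card + 1)) hd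
      set F' : Finset G.edgeSet := K.biUnion F with hF'
      have hgp : gp G p q F' K ≤ ε := by
        refine (gp_le_sum hp hp1 hq F' K).trans ?_
        have h1 : ∑ e ∈ K, gp G p q F' {e} ≤ ∑ _e ∈ K, ε / (K.card + 1) := by
          refine Finset.sum_le_sum fun e he => ?_
          exact (gp_anti hp hp1 hq (Finset.subset_biUnion_of_mem F he) {e}).trans (hF e)
        refine h1.trans ?_
        rw [Finset.sum_const, nsmul_eq_mul]
        have h2 : (0 : ℝ) < K.card + 1 := by positivity
        rw [mul_div_assoc', div_le_iff₀ h2]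
        nlinarith
      have hb : ∀ ξ, Ek G p q F' ∅ (one G K) ≤ kernel G p q F' ξ (cyl G K) ∧
          kernel G p q F' ξ (cyl G K) ≤ Ek G p q F' Set.univ (one G K) := by
        intro ξ
        rw [kernel_cyl]
        exact ⟨Ek_mono_bc hp hp1 hq F' (Set.empty_subset _) (one_nonneg K) (one_mono K),
          Ek_mono_bc hp hp1 hq F' (Set.subset_univ _) (one_nonneg K) (one_mono K)⟩
      have b1 := (measure_bounds hμ F' (measurable_cyl K) hb).2
      have b2 := (measure_bounds hν F' (measurable_cyl K) hb).1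
      have hn : 0 ≤ Ek G p q F' ∅ (one G K) := by
        have := Ek_mono hp hp1 hq F' ∅ (h := fun _ => 0) (h' := one G K) fun η _ => one_nonneg K _
        rwa [Ek_const hp hp1 hq] at this
      have hsum : Ek G p q F' Set.univ (one G K) ≤ Ek G p q F' ∅ (one G K) + ε := by
        unfold gp at hgp
        linarith
      refine b1.trans ((ENNReal.ofReal_le_ofReal hsum).trans ?_)
      rw [ENNReal.ofReal_add hn hε.le]
      exact add_le_add_left b2 _
    refine ENNReal.le_of_forall_pos_le_add fun ε hε _ => ?_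
    have := hk ε (by exact_mod_cast hε)
    rwa [ENNReal.ofReal_coe_nnreal] at this
  exact ext_cyl hμ.isProbabilityMeasure hν.isProbabilityMeasure fun K =>
    le_antisymm (hle μ ν hμ hν K) (hle ν μ hν hμ K)

end Pool.Agent.Helper88.UN
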